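import Mathlib

/-!
# Project RL (helper82), part QD: discriminants of quadratic extensions of an imaginary quadratic field
-/

set_option autoImplicit false

namespace Pool.Agent.L7h23.RL

open NumberField IsDedekindDomain Module
open scoped ComplexConjugate

/-- the norm of an element of an imaginary quadratic field -/
theorem norm_cplx {K : Type} [Field K] [NumberField K] {σ : K →+* ℂ} (hdeg : finrank ℚ K = 2)
    (hc : ∃ x, conj (σ x) ≠ σ x) (x : K) : ((Algebra.norm ℚ x : ℚ) : ℝ) = ‖σ x‖ ^ 2 := by
  classical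
  have hne : σ.toRatAlgHom ≠ ((starRingEnd ℂ).comp σ).toRatAlgHom := by
    intro he
    obtain ⟨x, hx⟩ := hc
    exact hx (congrArg (fun g : K →ₐ[ℚ] ℂ => g x) he).symm
  have hcard : Fintype.card (K →ₐ[ℚ] ℂ) = 2 := by
    rw [AlgHom.card, hdeg]
  have huniv : (Finset.univ : Finset (K →ₐ[ℚ] ℂ)) =
      {σ.toRatAlgHom, ((starRingEnd ℂ).comp σ).toRatAlgHom} := by
    symm
    apply Finset.eq_univ_of_card
    rw [Finset.card_pair hne, hcard]
  have h1 := Algebra.norm_eq_prod_embeddings ℚ ℂ x
  rw [huniv, Finset.prod_pair hne] at h1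
  have h2 : ((Algebra.norm ℚ x : ℚ) : ℂ) = σ x * conj (σ x) := h1
  rw [Complex.mul_conj, Complex.normSq_eq_norm_sq] at h2
  exact_mod_cast h2

/-- a place above -/
theorem exists_above {K F : Type} [Field K] [NumberField K] [Field F] [NumberField F] [Algebra K F]
    (v : HeightOneSpectrum (𝓞 K)) :
    ∃ u : HeightOneSpectrum (𝓞 F), u.asIdeal.comap (algebraMap (𝓞 K) (𝓞 F)) = v.asIdeal := by
  have hinj : Function.Injective (algebraMap (𝓞 K) (𝓞 F)) := by
    intro a b hab
    have h1 := congrArg (fun z : 𝓞 F => (z : F)) hab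
    have h2 : algebraMap K F (a : K) = algebraMap K F (b : K) := h1
    exact RingOfIntegers.ext ((algebraMap K F).injective h2)
  haveI : v.asIdeal.IsMaximal := v.isMaximal
  obtain ⟨Q, hQ, hQv⟩ := Ideal.exists_ideal_over_maximal_of_isIntegral (S := 𝓞 F) v.asIdeal (by
    rw [(RingHom.injective_iff_ker_eq_bot _).1 hinj]; exact bot_le)
  refine ⟨⟨Q, hQ.isPrime, ?_⟩, hQv⟩
  rintro rfl
  apply v.ne_bot
  rw [← hQv]
  exact (RingHom.injective_iff_ker_eq_bot _).1 hinj

/-- the determinant of the trace form twisted by an element -/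
theorem det_trace_mul {K : Type} [Field K] [NumberField K] {ι : Type} [Fintype ι] [DecidableEq ι]
    (b : Basis ι ℚ K) (c : K) :
    (Matrix.of fun i j => Algebra.trace ℚ K (c * (b i * b j))).det =
      Algebra.norm ℚ c * Algebra.discr ℚ b := by
  rw [Algebra.discr_def, Algebra.norm_eq_matrix_det b, ← Matrix.det_transpose (Algebra.leftMulMatrix b c),
    ← Matrix.det_mul]
  congr 1
  ext i j
  rw [Matrix.mul_apply, Matrix.of_apply]
  have h1 : c * b i = ∑ k, Algebra.leftMulMatrix b c k i • b k := by
    have := b.sum_repr (c * b i)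
    rw [← this]
    refine Finset.sum_congr rfl fun k _ => ?_
    rw [Algebra.leftMulMatrix_eq_repr_mul]
  rw [← mul_assoc, h1, Finset.sum_mul, map_sum]
  refine Finset.sum_congr rfl fun k _ => ?_
  rw [Matrix.transpose_apply, Algebra.traceMatrix_apply, Algebra.traceForm_apply, smul_mul_assoc,
    map_smul, smul_eq_mul]

/-- the discriminant of a quadratic extension -/
theorem discr_quad {K L : Type} [Field K] [NumberField K] [Field L] [NumberField L] [Algebra K L]
    (y : L) (β : K) (hβ : y * y = algebraMap K L β) (hy : ∀ x : K, algebraMap K L x ≠ y)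
    (h2 : finrank K L = 2) :
    ∃ q : ℚ, (discr L : ℚ) = q ^ 2 * Algebra.norm ℚ β := by
  classical
  -- the basis
  have hli : LinearIndependent K ![(1 : L), y] := by
    rw [LinearIndependent.pair_iff]
    intro s t hst
    by_cases ht : t = 0
    · subst ht
      simp only [zero_smul, add_zero, smul_eq_zero, one_ne_zero, or_false] at hst
      exact ⟨hst, rfl⟩
    · exfalso
      apply hy (-(s / t))
      have h3 : algebraMap K L s + algebraMap K L t * y = 0 := by
        simpa [Algebra.smul_def] using hst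
      have ht' : algebraMap K L t ≠ 0 := by
        rwa [Ne, map_eq_zero]
      rw [map_neg, map_div₀]
      field_simp
      linear_combination -h3
  set bL : Basis (Fin 2) K L := basisOfLinearIndependentOfCardEqFinrank hli (by simp [h2]) with hbL
  have hb0 : bL 0 = 1 := by simp [hbL]
  have hb1 : bL 1 = y := by simp [hbL]
  set bK := integralBasis K with hbK
  set b : Basis (Free.ChooseBasisIndex ℤ (𝓞 K) × Fin 2) ℚ L := bK.smulTower bL with hb
  -- traces
  have htr : ∀ z : L, Algebra.trace ℚ L z = Algebra.trace ℚ K (Algebra.trace K L z) := fun z =>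
    (Algebra.trace_trace z).symm
  have ht1 : Algebra.trace K L (1 : L) = 2 := by
    have := Algebra.trace_algebraMap (R := K) (S := L) (1 : K)
    rw [map_one, h2] at this
    simpa using this
  have hty : Algebra.trace K L y = 0 := by
    rw [Algebra.trace_eq_matrix_trace bL, Matrix.trace_fin_two, Algebra.leftMulMatrix_eq_repr_mul,
      Algebra.leftMulMatrix_eq_repr_mul, hb0, hb1, mul_one, hβ]
    have e1 : bL.repr y 0 = 0 := by
      rw [← hb1, bL.repr_self]
      simp
    have e2 : bL.repr (algebraMap K L β) 1 = 0 := by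
      have : algebraMap K L β = β • bL 0 := by rw [hb0, Algebra.smul_def, mul_one]
      rw [this, map_smul, bL.repr_self]
      simp
    rw [e1, e2, add_zero]
  have hty2 : ∀ x : K, Algebra.trace K L (algebraMap K L x) = 2 * x := fun x => by
    rw [Algebra.trace_algebraMap, h2]
    simp [two_mul, two_smul]
  have hdet : Algebra.discr ℚ b = (Algebra.norm ℚ (2 : K) * Algebra.discr ℚ bK) ^ 2 *
      Algebra.norm ℚ β := by
    have hM : Algebra.traceMatrix ℚ b = Matrix.blockDiagonal (fun e : Fin 2 =>
        Matrix.of fun i j => Algebra.trace ℚ K ((if e = 0 then 2 else 2 * β) * (bK i * bK j))) := by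
      ext ⟨i, e⟩ ⟨j, e'⟩
      rw [Algebra.traceMatrix_apply, Algebra.traceForm_apply, hb, Basis.smulTower_apply,
        Basis.smulTower_apply, Matrix.blockDiagonal_apply, smul_mul_smul_comm]
      show Algebra.trace ℚ L ((bK i * bK j) • (bL e * bL e')) = _
      rw [htr, map_smul, smul_eq_mul]
      fin_cases e <;> fin_cases e'
      · show Algebra.trace ℚ K (bK i * bK j * Algebra.trace K L (bL 0 * bL 0)) = _
        rw [hb0, one_mul, ht1]
        simp [mul_comm]
      · show Algebra.trace ℚ K (bK i * bK j * Algebra.trace K L (bL 0 * bL 1)) = _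
        rw [hb0, one_mul, hb1, hty]
        simp
      · show Algebra.trace ℚ K (bK i * bK j * Algebra.trace K L (bL 1 * bL 0)) = _
        rw [hb0, mul_one, hb1, hty]
        simp
      · show Algebra.trace ℚ K (bK i * bK j * Algebra.trace K L (bL 1 * bL 1)) = _
        rw [hb1, hβ, hty2]
        simp [mul_comm]
    rw [Algebra.discr_def, hM, Matrix.det_blockDiagonal, Fin.prod_univ_two]
    have e0 := det_trace_mul bK (2 : K)
    have e1 := det_trace_mul bK (2 * β)
    simp only [if_true]
    have e2 : ¬ ((1 : Fin 2) = 0) := by decide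
    simp only [e2, if_false]
    rw [e0, e1, map_mul]
    ring
  -- comparison with the integral basis
  have hcard : Fintype.card (Free.ChooseBasisIndex ℤ (𝓞 K) × Fin 2) =
      Fintype.card (Free.ChooseBasisIndex ℤ (𝓞 L)) := by
    rw [← finrank_eq_card_basis b, ← finrank_eq_card_basis (integralBasis L)]
  let e := Fintype.equivOfCardEq hcard
  set b' : Basis (Free.ChooseBasisIndex ℤ (𝓞 L)) ℚ L := b.reindex e with hb'
  have hd' : Algebra.discr ℚ b' = Algebra.discr ℚ b := by
    rw [← Algebra.discr_reindex ℚ b e]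
    congr 1
    funext i
    simp [hb']
  have h5 := Basis.toMatrix_map_vecMul b' (integralBasis L : _ → L)
  have h6 := Algebra.discr_of_matrix_vecMul (A := ℚ) (b' : _ → L) (b'.toMatrix (integralBasis L))
  rw [h5, hd', hdet, ← coe_discr] at h6
  exact ⟨(b'.toMatrix (integralBasis L)).det * (Algebra.norm ℚ (2 : K) * Algebra.discr ℚ bK), by
    rw [h6]; ring⟩

/-- the core of QD -/
theorem qd_core (K F : Type) [Field K] [NumberField K] [Field F] [NumberField F] [Algebra K F]
    [IsGalois K F] (σ : K →+* ℂ) (hdeg : finrank ℚ K = 2) (hc : ∃ x, conj (σ x) ≠ σ x)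
    (ν : F →+* ℂ) (hν : ∀ x : K, ν (algebraMap K F x) = σ x)
    (N : ((F ≃ₐ[K] F) →* ℂˣ) → ℝ) (hN0 : ∀ ψ, 0 ≤ N ψ) (hN1 : N 1 = 1)
    (hD : ∀ L : IntermediateField K F, |(discr L : ℝ)| = |(discr K : ℝ)| ^ finrank K L *
      ∏ᶠ ψ : {ψ : (F ≃ₐ[K] F) →* ℂˣ // ∀ g ∈ L.fixingSubgroup, ψ g = 1}, N ψ.1)
    (φ : (F ≃ₐ[K] F) →* ℂˣ) (y : F) (hy0 : y ≠ 0)
    (hφ : ∀ g : F ≃ₐ[K] F, (φ g = 1 ∧ g y = y) ∨ (φ g = -1 ∧ g y = -y)) :
    ∃ q : ℚ, q ≠ 0 ∧ ‖ν y‖ ^ 2 = (q : ℝ) * √(N φ) := by
  have hνy : ν y ≠ 0 := by rwa [Ne, map_eq_zero]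
  have hfix : ∀ x : F, (∀ g : F ≃ₐ[K] F, g x = x) → ∃ x₀ : K, algebraMap K F x₀ = x := fun x hx => by
    have := (IsGalois.mem_bot_iff_fixed (F := K) (E := F) x).2 hx
    exact IntermediateField.mem_bot.1 this
  by_cases h1 : φ = 1
  · -- trivial character
    subst h1
    obtain ⟨x₀, hx₀⟩ := hfix y fun g => by
      rcases hφ g with h | h
      · exact h.2
      · exfalso
        have h3 : (1 : ℂˣ) = -1 := h.1
        have h4 := congrArg (fun u : ℂˣ => (u : ℂ)) h3
        norm_num at h4
    refine ⟨Algebra.norm ℚ x₀, ?_, ?_⟩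
    · intro h0
      have := norm_cplx hdeg hc x₀
      rw [h0, ← hν, hx₀] at this
      have h5 : ‖ν y‖ ^ 2 ≠ 0 := by positivity
      exact h5 (by simpa using this.symm)
    · rw [hN1, Real.sqrt_one, mul_one, norm_cplx hdeg hc x₀, ← hν, hx₀]
  · -- quadratic character
    obtain ⟨g₀, hg₀⟩ : ∃ g₀, φ g₀ ≠ 1 := by
      by_contra hcon
      push Not at hcon
      exact h1 (MonoidHom.ext hcon)
    have hg₀' : φ g₀ = -1 ∧ g₀ y = -y := (hφ g₀).resolve_left fun h => hg₀ h.1
    obtain ⟨β, hβ⟩ := hfix (y * y) fun g => by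
      rw [map_mul]
      rcases hφ g with h | h
      · rw [h.2]
      · rw [h.2]; ring
    have hymem : ∀ x : K, algebraMap K F x ≠ y := by
      intro x hx
      have h3 : g₀ y = y := by rw [← hx]; exact g₀.commutes x
      rw [hg₀'.2] at h3
      have h4 : (2 : F) * y = 0 := by linear_combination -h3
      rcases mul_eq_zero.1 h4 with h5 | h5
      · exact two_ne_zero h5
      · exact hy0 h5
    -- the field
    set L : IntermediateField K F := IntermediateField.adjoin K {y} with hL
    have hyL : y ∈ L := IntermediateField.mem_adjoin_simple_self K y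
    let y' : L := ⟨y, hyL⟩
    have hβ' : y' * y' = algebraMap K L β := Subtype.ext hβ.symm
    have hy' : ∀ x : K, algebraMap K L x ≠ y' := fun x hx => hymem x (congrArg Subtype.val hx)
    have hint : IsIntegral K y := Algebra.IsIntegral.isIntegral y
    have hfr : finrank K L = 2 := by
      rw [hL, IntermediateField.adjoin.finrank hint]
      have h3 : minpoly K y = Polynomial.X ^ 2 - Polynomial.C β := by
        symm
        apply minpoly.eq_of_irreducible_of_monic
        · rw [Polynomial.irreducible_iff_roots_eq_zero_of_degree_le_three]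
          · rw [Multiset.eq_zero_iff_forall_notMem]
            intro a ha
            rw [Polynomial.mem_roots'] at ha
            have h4 : a ^ 2 - β = 0 := by simpa using ha.2
            have h5 : (algebraMap K F a) ^ 2 = y * y := by
              rw [← hβ, ← map_pow]
              congr 1
              linear_combination h4
            have h6 : (algebraMap K F a - y) * (algebraMap K F a + y) = 0 := by
              linear_combination h5
            rcases mul_eq_zero.1 h6 with h7 | h7
            · exact hymem a (sub_eq_zero.1 h7)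
            · apply hymem (-a)
              rw [map_neg]
              linear_combination -h7
          · rw [Polynomial.natDegree_X_pow_sub_C]
          · rw [Polynomial.natDegree_X_pow_sub_C]; norm_num
        · simp only [map_sub, map_pow, Polynomial.aeval_X, Polynomial.aeval_C]
          rw [hβ]; ring
        · exact Polynomial.monic_X_pow_sub_C β (by norm_num)
      rw [h3, Polynomial.natDegree_X_pow_sub_C]
    -- the fixing subgroup
    have hfs : ∀ g : F ≃ₐ[K] F, g ∈ L.fixingSubgroup ↔ φ g = 1 := by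
      intro g
      rw [IntermediateField.mem_fixingSubgroup_iff]
      constructor
      · intro h
        rcases hφ g with h3 | h3
        · exact h3.1
        · exfalso
          have h4 := h y hyL
          rw [h3.2] at h4
          have h5 : (2 : F) * y = 0 := by linear_combination -h4
          rcases mul_eq_zero.1 h5 with h6 | h6
          · exact two_ne_zero h6
          · exact hy0 h6
      · intro h x hx
        have hgy : g y = y := by
          rcases hφ g with h3 | h3
          · exact h3.2
          · exfalso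
            rw [h] at h3
            have h4 := congrArg (fun u : ℂˣ => (u : ℂ)) h3.1
            norm_num at h4
        have h3 : L ≤ IntermediateField.fixedField (Subgroup.zpowers g) := by
          rw [hL, IntermediateField.adjoin_simple_le_iff, IntermediateField.mem_fixedField_iff]
          intro f hf
          obtain ⟨n, rfl⟩ := Subgroup.mem_zpowers_iff.1 hf
          have h4 : g ∈ MulAction.stabilizer (F ≃ₐ[K] F) y := hgy
          exact (MulAction.stabilizer (F ≃ₐ[K] F) y).zpow_mem h4 n
        have h4 := h3 hx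
        rw [IntermediateField.mem_fixedField_iff] at h4
        exact h4 g (Subgroup.mem_zpowers g)
    have hset : {ψ : (F ≃ₐ[K] F) →* ℂˣ | ∀ g ∈ L.fixingSubgroup, ψ g = 1} = {1, φ} := by
      ext ψ
      simp only [Set.mem_setOf_eq, Set.mem_insert_iff, Set.mem_singleton_iff]
      constructor
      · intro h
        have h3 : ∀ g, φ g = 1 → ψ g = 1 := fun g hg => h g ((hfs g).2 hg)
        have h4 : ∀ g, φ g = -1 → ψ g = ψ g₀ := by
          intro g hg
          have h5 : ψ (g * g₀) = 1 := by
            apply h3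
            rw [map_mul, hg, hg₀'.1]
            simp
          have h6 : ψ (g₀ * g₀) = 1 := by
            apply h3
            rw [map_mul, hg₀'.1]
            simp
          rw [map_mul] at h5 h6
          exact mul_right_cancel (h5.trans h6.symm)
        have h6 : ψ g₀ * ψ g₀ = 1 := by
          rw [← map_mul]
          apply h3
          rw [map_mul, hg₀'.1]
          simp
        have h7 : ψ g₀ = 1 ∨ ψ g₀ = -1 := by
          have h8 := congrArg (fun u : ℂˣ => (u : ℂ)) h6
          have h9 : ((ψ g₀ : ℂˣ) : ℂ) * ((ψ g₀ : ℂˣ) : ℂ) = 1 := by simpa using h8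
          rcases mul_self_eq_one_iff.1 h9 with h | h
          · left; exact Units.ext (by simpa using h)
          · right; exact Units.ext (by simpa using h)
        rcases h7 with h7 | h7
        · left
          ext g
          rcases hφ g with h8 | h8
          · rw [h3 g h8.1]; rfl
          · rw [h4 g h8.1, h7]; rfl
        · right
          ext g
          rcases hφ g with h8 | h8
          · rw [h3 g h8.1, h8.1]
          · rw [h4 g h8.1, h7, h8.1]
      · rintro (rfl | rfl)
        · intro g _; rfl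
        · intro g hg; exact (hfs g).1 hg
    have hprod : (∏ᶠ ψ : {ψ : (F ≃ₐ[K] F) →* ℂˣ // ∀ g ∈ L.fixingSubgroup, ψ g = 1}, N ψ.1) =
        N φ := by
      rw [finprod_subtype_eq_finprod_cond (f := N)
        (p := fun ψ : (F ≃ₐ[K] F) →* ℂˣ => ∀ g ∈ L.fixingSubgroup, ψ g = 1)]
      have h3 : ∀ ψ : (F ≃ₐ[K] F) →* ℂˣ, (∀ g ∈ L.fixingSubgroup, ψ g = 1) ↔
          ψ ∈ ({1, φ} : Set ((F ≃ₐ[K] F) →* ℂˣ)) := fun ψ => by
        rw [← hset]; rfl
      simp only [h3]
      rw [finprod_mem_pair (Ne.symm h1), hN1, one_mul]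
    have hLD := hD L
    rw [hprod, hfr] at hLD
    obtain ⟨q₁, hq₁⟩ := discr_quad y' β hβ' hy' hfr
    have hDL : (discr L : ℝ) = (q₁ : ℝ) ^ 2 * ((Algebra.norm ℚ β : ℚ) : ℝ) := by
      exact_mod_cast congrArg (fun z : ℚ => (z : ℝ)) hq₁
    have hnβ : ((Algebra.norm ℚ β : ℚ) : ℝ) = (‖ν y‖ ^ 2) ^ 2 := by
      rw [norm_cplx hdeg hc β, ← hν, hβ, map_mul, norm_mul]
      ring
    have hDL0 : (discr L : ℝ) ≠ 0 := by exact_mod_cast discr_ne_zero L
    have hDK0 : (discr K : ℝ) ≠ 0 := by exact_mod_cast discr_ne_zero K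
    have hq₁0 : (q₁ : ℝ) ≠ 0 := by
      rintro h0
      rw [h0] at hDL
      exact hDL0 (by rw [hDL]; ring)
    have hq₁0' : q₁ ≠ 0 := by exact_mod_cast hq₁0
    have hDK0' : (discr K : ℚ) ≠ 0 := by exact_mod_cast discr_ne_zero K
    refine ⟨|(discr K : ℚ)| / |q₁|, by positivity, ?_⟩
    have hpos : 0 < ‖ν y‖ ^ 2 := by positivity
    rw [hDL, abs_mul, abs_of_nonneg (sq_nonneg (q₁ : ℝ)), hnβ, abs_of_nonneg (sq_nonneg _)] at hLD
    have h10 : (‖ν y‖ ^ 2) ^ 2 = ((|(discr K : ℚ)| / |q₁| : ℚ) : ℝ) ^ 2 * N φ := by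
      push_cast
      rw [div_pow, sq_abs, sq_abs]
      rw [sq_abs] at hLD
      field_simp
      linear_combination hLD
    have h11 : ‖ν y‖ ^ 2 = √((‖ν y‖ ^ 2) ^ 2) := (Real.sqrt_sq hpos.le).symm
    rw [h11, h10, Real.sqrt_mul (sq_nonneg _), Real.sqrt_sq (by positivity)]

end Pool.Agent.L7h23.RL
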