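import Mathlib
import Pool.Agent.L7h23.RL.QdCore

/-!
# Project RL (helper82), part CP: products of a stable family of characters
-/

set_option autoImplicit false

namespace Pool.Agent.L7h23.RL

open NumberField IsDedekindDomain Module
open scoped ComplexConjugate

/-- the dual group of a finite group is finite -/
theorem dual_finite (G : Type) [Group G] [Finite G] : Finite (G →* ℂˣ) := by
  have hn : Nat.card G ≠ 0 := Nat.card_pos.ne'
  haveI : NeZero (Nat.card G) := ⟨hn⟩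
  let f : (G →* ℂˣ) → (G → rootsOfUnity (Nat.card G) ℂ) := fun ψ g =>
    ⟨ψ g, by rw [mem_rootsOfUnity, ← map_pow, pow_card_eq_one', map_one]⟩
  refine Finite.of_injective f fun a b hab => ?_
  ext g
  have := congrArg (fun h => ((h g : rootsOfUnity (Nat.card G) ℂ) : ℂˣ)) hab
  exact congrArg Units.val this

/-- a product over a set with an involution without fixed points is a square -/
theorem prod_sq {α : Type} [DecidableEq α] (τ : α → α) (hτ : ∀ a, τ (τ a) = a) (h : α → ℕ)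
    (hh : ∀ a, h (τ a) = h a) : ∀ B : Finset α, (∀ a ∈ B, τ a ∈ B) → (∀ a ∈ B, τ a ≠ a) →
    ∃ n : ℕ, ∏ a ∈ B, h a = n ^ 2 := by
  intro B
  induction B using Finset.strongInduction with
  | H B ih =>
    intro h1 h2
    rcases B.eq_empty_or_nonempty with rfl | ⟨a, ha⟩
    · exact ⟨1, by simp⟩
    · have hta := h1 a ha
      have hne := h2 a ha
      have hmem : τ a ∈ B.erase a := Finset.mem_erase.2 ⟨hne, hta⟩
      obtain ⟨n, hn⟩ := ih ((B.erase a).erase (τ a))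
        ((Finset.erase_subset _ _).trans_ssubset (Finset.erase_ssubset ha)) (by
          intro b hb
          simp only [Finset.mem_erase] at hb ⊢
          refine ⟨fun h3 => hb.2.1 ?_, fun h3 => hb.1 ?_, h1 b hb.2.2⟩
          · rw [← hτ b, h3, hτ]
          · rw [← hτ b, h3]) (by
          intro b hb
          simp only [Finset.mem_erase] at hb
          exact h2 b hb.2.2)
      refine ⟨h a * n, ?_⟩
      rw [← Finset.mul_prod_erase B h ha, ← Finset.mul_prod_erase (B.erase a) h hmem, hn, hh]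
      ring

section grp

variable {D : Type} [CommGroup D] {k : ℕ} (ψ : Fin k → D)

theorem prod_mult [Fintype D] {M : Type} [CommMonoid M] (f : D → M) :
    ∏ i, f (ψ i) = ∏ φ : D, f φ ^ Nat.card {i // ψ i = φ} := by
  classical
  rw [← Finset.prod_fiberwise Finset.univ ψ (fun i => f (ψ i))]
  refine Finset.prod_congr rfl fun φ _ => ?_
  rw [Finset.prod_congr rfl (g := fun _ => f φ) fun i hi => by
    rw [(Finset.mem_filter.1 hi).2]]
  rw [Finset.prod_const, Nat.card_eq_fintype_card, Fintype.card_subtype]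

theorem cp_one [DecidableEq D] [Finite D] (hst : ∀ φ : D, Nat.card {i // ψ i = φ⁻¹} = Nat.card {i // ψ i = φ})
    {M : Type} [CommGroup M] (ev : D →* M) :
    ∏ i, (if ψ i * ψ i = 1 then 1 else ev (ψ i)) = 1 := by
  haveI := Fintype.ofFinite D
  rw [prod_mult ψ (fun φ => if φ * φ = 1 then (1 : M) else ev φ)]
  refine Finset.prod_involution (fun φ _ => φ⁻¹) ?_ ?_ ?_ ?_
  · intro φ _
    have h1 : (φ⁻¹ * φ⁻¹ = 1) ↔ (φ * φ = 1) := by
      rw [← mul_inv, inv_eq_one]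
    simp only [h1, hst φ, map_inv]
    split_ifs
    · simp
    · rw [← mul_pow]; simp
  · intro φ _ h2 h3
    apply h2
    have h4 : φ * φ = 1 := by
      nth_rewrite 1 [← h3]
      simp
    simp [h4]
  · intro φ _
    exact Finset.mem_univ _
  · intro φ _
    exact inv_inv φ

theorem cp_sq [DecidableEq D] [Finite D] (hst : ∀ φ : D, Nat.card {i // ψ i = φ⁻¹} = Nat.card {i // ψ i = φ})
    (f : D → ℕ) (hf : ∀ φ, f φ⁻¹ = f φ) :
    ∃ n : ℕ, ∏ i, (if ψ i * ψ i = 1 then 1 else f (ψ i)) = n ^ 2 := by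
  haveI := Fintype.ofFinite D
  rw [prod_mult ψ (fun φ => if φ * φ = 1 then (1 : ℕ) else f φ)]
  obtain ⟨n, hn⟩ := prod_sq (fun φ : D => φ⁻¹) inv_inv
    (fun φ => f φ ^ Nat.card {i // ψ i = φ}) (fun φ => by
      show f φ⁻¹ ^ Nat.card {i // ψ i = φ⁻¹} = _
      rw [hf, hst]) (Finset.univ.filter fun φ : D => ¬ φ * φ = 1) (by
      intro φ hφ
      simp only [Finset.mem_filter, Finset.mem_univ, true_and] at hφ ⊢
      rwa [← mul_inv, inv_eq_one]) (by
      intro φ hφ h3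
      simp only [Finset.mem_filter, Finset.mem_univ, true_and] at hφ
      apply hφ
      nth_rewrite 1 [← h3]
      simp)
  refine ⟨n, ?_⟩
  rw [← hn, Finset.prod_filter]
  refine Finset.prod_congr rfl fun φ _ => ?_
  split_ifs <;> simp

end grp

/-- the resolvent of a quadratic character -/
theorem exists_res {K F : Type} [Field K] [NumberField K] [Field F] [NumberField F] [Algebra K F]
    (φ : (F ≃ₐ[K] F) →* ℂˣ) (hφ : φ * φ = 1) :
    ∃ y : F, y ≠ 0 ∧ ∀ g : F ≃ₐ[K] F, (φ g = 1 ∧ g y = y) ∨ (φ g = -1 ∧ g y = -y) := by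
  classical
  have hpm : ∀ g, φ g = 1 ∨ φ g = -1 := by
    intro g
    have h6 : φ g * φ g = 1 := by
      have := DFunLike.congr_fun hφ g
      simpa using this
    have h8 := congrArg (fun u : ℂˣ => (u : ℂ)) h6
    have h9 : ((φ g : ℂˣ) : ℂ) * ((φ g : ℂˣ) : ℂ) = 1 := by simpa using h8
    rcases mul_self_eq_one_iff.1 h9 with h | h
    · left; exact Units.ext (by simpa using h)
    · right; exact Units.ext (by simpa using h)
  have hne : (1 : ℂˣ) ≠ -1 := by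
    intro h3
    have h4 := congrArg (fun u : ℂˣ => (u : ℂ)) h3
    norm_num at h4
  let ε : (F ≃ₐ[K] F) → F := fun g => if φ g = 1 then 1 else -1
  have hε : ∀ g, (φ g = 1 ∧ ε g = 1) ∨ (φ g = -1 ∧ ε g = -1) := by
    intro g
    rcases hpm g with h | h
    · left; exact ⟨h, if_pos h⟩
    · right; exact ⟨h, if_neg (by rw [h]; exact hne.symm)⟩
  have hεm : ∀ g h, ε (g * h) = ε g * ε h := by
    intro g h
    rcases hε g with ⟨a1, a2⟩ | ⟨a1, a2⟩ <;> rcases hε h with ⟨b1, b2⟩ | ⟨b1, b2⟩ <;>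
      rcases hε (g * h) with ⟨c1, c2⟩ | ⟨c1, c2⟩ <;> rw [a2, b2, c2] <;>
      rw [map_mul, a1, b1] at c1 <;> simp at c1 ⊢ <;> first | exact absurd c1 hne | exact absurd c1.symm hne | exact absurd c1 hne.symm
  have hεε : ∀ g, ε g * ε g = 1 := by
    intro g
    rcases hε g with ⟨_, h⟩ | ⟨_, h⟩ <;> rw [h] <;> ring
  have hεg : ∀ g h : F ≃ₐ[K] F, h (ε g) = ε g := by
    intro g h
    rcases hε g with ⟨_, h1⟩ | ⟨_, h1⟩ <;> rw [h1]
    · exact map_one h
    · rw [map_neg, map_one]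
  haveI : Fintype (F ≃ₐ[K] F) := Fintype.ofFinite _
  obtain ⟨x, hx⟩ : ∃ x : F, ∑ g : F ≃ₐ[K] F, ε g * g x ≠ 0 := by
    by_contra hcon
    push Not at hcon
    have hli : LinearIndependent F (fun g : F ≃ₐ[K] F => (((g : F →* F) : F →* F) : F → F)) := by
      have h1 := linearIndependent_monoidHom F F
      have h2 : Function.Injective (fun g : F ≃ₐ[K] F => (g : F →* F)) := by
        intro a b hab
        ext z
        exact DFunLike.congr_fun hab z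
      exact h1.comp _ h2
    rw [Fintype.linearIndependent_iff] at hli
    have h3 := hli ε (by
      funext z
      simpa [Finset.sum_apply] using hcon z) 1
    rcases hε 1 with ⟨_, h⟩ | ⟨_, h⟩ <;> rw [h] at h3 <;> norm_num at h3
  refine ⟨∑ g : F ≃ₐ[K] F, ε g * g x, hx, fun h => ?_⟩
  have key : h (∑ g : F ≃ₐ[K] F, ε g * g x) = ε h * ∑ g : F ≃ₐ[K] F, ε g * g x := by
    rw [map_sum, Finset.mul_sum, ← Equiv.sum_comp (Equiv.mulLeft h)
      (fun g : F ≃ₐ[K] F => ε h * (ε g * g x))]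
    refine Finset.sum_congr rfl fun g _ => ?_
    rw [map_mul, hεg, Equiv.coe_mulLeft, hεm, ← mul_assoc, ← mul_assoc, hεε, one_mul]
    rfl
  rcases hε h with ⟨h1, h2⟩ | ⟨h1, h2⟩
  · left
    exact ⟨h1, by rw [key, h2, one_mul]⟩
  · right
    exact ⟨h1, by rw [key, h2]; ring⟩

/-- the core of CP -/
theorem cp_core (K F : Type) [Field K] [NumberField K] [Field F] [NumberField F] [Algebra K F]
    [IsGalois K F] (σ : K →+* ℂ) (hdeg : finrank ℚ K = 2) (hc : ∃ x, conj (σ x) ≠ σ x)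
    (ν : F →+* ℂ) (hν : ∀ x : K, ν (algebraMap K F x) = σ x)
    (N : ((F ≃ₐ[K] F) →* ℂˣ) → ℕ) (hN0 : ∀ ψ, N ψ ≠ 0) (hNi : ∀ ψ, N ψ⁻¹ = N ψ)
    (hQ : ∀ (φ : (F ≃ₐ[K] F) →* ℂˣ) (y : F), y ≠ 0 →
      (∀ g : F ≃ₐ[K] F, (φ g = 1 ∧ g y = y) ∨ (φ g = -1 ∧ g y = -y)) →
      ∃ q : ℚ, q ≠ 0 ∧ ‖ν y‖ ^ 2 = (q : ℝ) * √(N φ : ℝ))
    (k : ℕ) (ψ : Fin k → ((F ≃ₐ[K] F) →* ℂˣ))
    (hst : ∀ φ, Nat.card {i // ψ i = φ⁻¹} = Nat.card {i // ψ i = φ})
    (d : (F ≃ₐ[K] F) → ℚ) (hd : ∀ g, ∏ i, ((ψ i g : ℂˣ) : ℂ) = (d g : ℂ))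
    (y : F) (hy0 : y ≠ 0) (hy : ∀ g : F ≃ₐ[K] F, (d g : F) * g y = y) :
    ∃ q : ℚ, q ≠ 0 ∧ ‖ν y‖ ^ 2 = (q : ℝ) * √(∏ i, (N (ψ i) : ℝ)) := by
  classical
  haveI := dual_finite (F ≃ₐ[K] F)
  have hres : ∀ φ : (F ≃ₐ[K] F) →* ℂˣ, ∃ z : F, z ≠ 0 ∧ (φ * φ = 1 →
      ∀ g : F ≃ₐ[K] F, (φ g = 1 ∧ g z = z) ∨ (φ g = -1 ∧ g z = -z)) := by
    intro φ
    by_cases h : φ * φ = 1
    · obtain ⟨z, h1, h2⟩ := exists_res φ h
      exact ⟨z, h1, fun _ => h2⟩
    · exact ⟨1, one_ne_zero, fun h' => absurd h' h⟩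
  choose Y hY0 hY using hres
  set z : F := ∏ i, (if ψ i * ψ i = 1 then Y (ψ i) else 1) with hz
  have hz0 : z ≠ 0 := by
    rw [hz, Finset.prod_ne_zero_iff]
    intro i _
    split_ifs
    · exact hY0 _
    · exact one_ne_zero
  -- the action on `z`
  have hgz : ∀ g : F ≃ₐ[K] F, g z = (d g : F) * z := by
    intro g
    have h1 : ∏ i, (if ψ i * ψ i = 1 then (1 : ℂˣ) else ψ i g) = 1 :=
      cp_one ψ hst (MonoidHom.eval g)
    have h2 : ∏ i, (if ψ i * ψ i = 1 then ((ψ i g : ℂˣ) : ℂ) else 1) = (d g : ℂ) := by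
      rw [← hd g]
      have h3 : ∏ i, ((ψ i g : ℂˣ) : ℂ) =
          (∏ i, (if ψ i * ψ i = 1 then ((ψ i g : ℂˣ) : ℂ) else 1)) *
          ((∏ i, (if ψ i * ψ i = 1 then (1 : ℂˣ) else ψ i g) : ℂˣ) : ℂ) := by
        rw [Units.coe_prod, ← Finset.prod_mul_distrib]
        refine Finset.prod_congr rfl fun i _ => ?_
        split_ifs <;> simp
      rw [h3, h1]
      simp
    -- signs
    have h4 : ∃ s : ℤ, (∏ i, (if ψ i * ψ i = 1 then ((ψ i g : ℂˣ) : ℂ) else 1) = (s : ℂ)) ∧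
        g z = (s : F) * z := by
      rw [hz, map_prod]
      have h5 : ∀ i, ∃ s : ℤ, ((if ψ i * ψ i = 1 then ((ψ i g : ℂˣ) : ℂ) else 1) = (s : ℂ)) ∧
          g (if ψ i * ψ i = 1 then Y (ψ i) else 1) =
            (s : F) * (if ψ i * ψ i = 1 then Y (ψ i) else 1) := by
        intro i
        by_cases h : ψ i * ψ i = 1
        · rcases hY (ψ i) h g with ⟨a, b⟩ | ⟨a, b⟩
          · exact ⟨1, by simp [h, a], by simp [h, b]⟩
          · exact ⟨-1, by simp [h, a], by simp [h, b]⟩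
        · exact ⟨1, by simp [h], by simp [h]⟩
      choose s hs1 hs2 using h5
      refine ⟨∏ i, s i, ?_, ?_⟩
      · rw [Finset.prod_congr rfl fun i _ => hs1 i]
        push_cast
        rfl
      · rw [Finset.prod_congr rfl fun i _ => hs2 i, Finset.prod_mul_distrib]
        push_cast
        rfl
    obtain ⟨s, hs1, hs2⟩ := h4
    rw [h2] at hs1
    have h6 : d g = (s : ℚ) := by exact_mod_cast hs1
    rw [hs2, h6]
    push_cast
    rfl
  -- the product lies in `K`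
  have hfix : ∀ g : F ≃ₐ[K] F, g (z * y) = z * y := by
    intro g
    rw [map_mul, hgz, mul_comm (d g : F) z, mul_assoc, hy]
  obtain ⟨x₀, hx₀⟩ : ∃ x₀ : K, algebraMap K F x₀ = z * y :=
    IntermediateField.mem_bot.1 ((IsGalois.mem_bot_iff_fixed (F := K) (E := F) (z * y)).2 hfix)
  have hn : ‖ν z‖ ^ 2 * ‖ν y‖ ^ 2 = ((Algebra.norm ℚ x₀ : ℚ) : ℝ) := by
    rw [norm_cplx hdeg hc x₀, ← hν, hx₀, map_mul, norm_mul, mul_pow]
  -- the norm of `z`
  have hqz : ∃ q : ℚ, q ≠ 0 ∧ ‖ν z‖ ^ 2 =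
      (q : ℝ) * √(∏ i, (if ψ i * ψ i = 1 then (N (ψ i) : ℝ) else 1)) := by
    have h5 : ∀ i, ∃ q : ℚ, q ≠ 0 ∧ ‖ν (if ψ i * ψ i = 1 then Y (ψ i) else 1)‖ ^ 2 =
        (q : ℝ) * √(if ψ i * ψ i = 1 then (N (ψ i) : ℝ) else 1) := by
      intro i
      by_cases h : ψ i * ψ i = 1
      · obtain ⟨q, h1, h2⟩ := hQ (ψ i) (Y (ψ i)) (hY0 _) (hY _ h)
        exact ⟨q, h1, by rw [if_pos h, if_pos h, h2]⟩
      · exact ⟨1, one_ne_zero, by rw [if_neg h, if_neg h]; simp⟩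
    choose q hq1 hq2 using h5
    refine ⟨∏ i, q i, Finset.prod_ne_zero_iff.2 fun i _ => hq1 i, ?_⟩
    rw [hz, map_prod, norm_prod, ← Finset.prod_pow, Finset.prod_congr rfl fun i _ => hq2 i,
      Finset.prod_mul_distrib]
    push_cast
    congr 1
    rw [Real.sqrt_prod]
    intro i _
    split_ifs
    · positivity
    · exact zero_le_one
  obtain ⟨q₀, hq₀, hq₀z⟩ := hqz
  obtain ⟨n, hnsq⟩ := cp_sq ψ hst N hNi
  set PA : ℕ := ∏ i, (if ψ i * ψ i = 1 then N (ψ i) else 1) with hPA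
  have hPAr : (∏ i, (if ψ i * ψ i = 1 then (N (ψ i) : ℝ) else 1)) = (PA : ℝ) := by
    rw [hPA]
    push_cast
    refine Finset.prod_congr rfl fun i _ => ?_
    split_ifs <;> simp
  have hall : (∏ i, (N (ψ i) : ℝ)) = (PA : ℝ) * (n : ℝ) ^ 2 := by
    have h1 : (∏ i, N (ψ i)) = PA * n ^ 2 := by
      rw [← hnsq, hPA, ← Finset.prod_mul_distrib]
      refine Finset.prod_congr rfl fun i _ => ?_
      split_ifs <;> simp
    exact_mod_cast congrArg (fun z : ℕ => (z : ℝ)) h1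
  have hall0 : (∏ i, (N (ψ i) : ℝ)) ≠ 0 :=
    Finset.prod_ne_zero_iff.2 fun i _ => Nat.cast_ne_zero.2 (hN0 _)
  have hPA0 : (PA : ℝ) ≠ 0 := by
    intro h0; rw [hall, h0] at hall0; simp at hall0
  have hn0 : (n : ℝ) ≠ 0 := by
    intro h0; rw [hall, h0] at hall0; simp at hall0
  have hPApos : (0 : ℝ) < PA := lt_of_le_of_ne (Nat.cast_nonneg _) (Ne.symm hPA0)
  have hnpos : (0 : ℝ) < n := lt_of_le_of_ne (Nat.cast_nonneg _) (Ne.symm hn0)
  rw [hPAr] at hq₀z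
  have hsq : √(PA : ℝ) * √(PA : ℝ) = PA := Real.mul_self_sqrt hPApos.le
  have hsq0 : √(PA : ℝ) ≠ 0 := (Real.sqrt_pos.2 hPApos).ne'
  have hq₀r : (q₀ : ℝ) ≠ 0 := by exact_mod_cast hq₀
  have hx₀0 : Algebra.norm ℚ x₀ ≠ 0 := by
    intro h0
    rw [h0] at hn
    have h1 : ‖ν z‖ ^ 2 * ‖ν y‖ ^ 2 ≠ 0 := by
      have a : ν z ≠ 0 := by rwa [Ne, map_eq_zero]
      have b : ν y ≠ 0 := by rwa [Ne, map_eq_zero]
      positivity
    exact h1 (by rw [hn]; simp)
  have hPAq : (PA : ℚ) ≠ 0 := by exact_mod_cast hPA0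
  have hnq : (n : ℚ) ≠ 0 := by exact_mod_cast hn0
  refine ⟨Algebra.norm ℚ x₀ / (q₀ * PA * n), by positivity, ?_⟩
  rw [hall, Real.sqrt_mul hPApos.le, Real.sqrt_sq hnpos.le]
  push_cast
  rw [hq₀z] at hn
  rw [← hn]
  field_simp
  linear_combination (-‖ν y‖ ^ 2) * hsq

end Pool.Agent.L7h23.RL
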