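import Pool.Agent.L7h82.RL.Stm2
import Pool.Agent.L7h23.RL.CpCore

/-!
# Project RL (helper82): part CP
-/

set_option autoImplicit false

namespace Pool.Agent.L7h23.RL

open NumberField IsDedekindDomain Module Pool.Agent.L7h82.RL
open scoped ComplexConjugate

theorem s_CP : S_CP := by
  intro hQD hPOW hCLS K F _ _ _ _ _ _ _ σ δ hIQ hcomm ν hν 𝔣 χ hRC hCDF k ψ hstab d hd y hy0 hy
  classical
  haveI := dual_finite (F ≃ₐ[K] F)
  haveI : Fintype ((F ≃ₐ[K] F) →* ℂˣ) := Fintype.ofFinite _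
  have hmul := (hCLS K F hcomm 𝔣 χ hRC).1
  have hpow := hPOW K ((F ≃ₐ[K] F) →* ℂˣ) 𝔣 χ (fun g => (hRC g).ch) hmul
  have hinv : ∀ φ, 𝔣 φ⁻¹ = 𝔣 φ := fun φ => (hpow.2.2.2 φ).1
  refine cp_core K F σ hIQ.deg hIQ.cplx ν hν (fun φ => Ideal.absNorm (𝔣 φ)) ?_ ?_ ?_ k ψ ?_ d hd y
    hy0 hy
  · intro φ h0
    exact (hRC φ).ch.f0 (Ideal.absNorm_eq_zero_iff.1 h0)
  · intro φ
    show Ideal.absNorm (𝔣 φ⁻¹) = Ideal.absNorm (𝔣 φ)
    rw [hinv]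
  · intro φ z hz0 hz
    exact hQD K F σ δ hIQ hcomm ν hν 𝔣 χ hRC hCDF φ z hz0 hz
  · intro φ
    obtain ⟨m, hm⟩ : ∃ m, Nat.card ((F ≃ₐ[K] F) →* ℂˣ) = m + 1 :=
      ⟨Nat.card ((F ≃ₐ[K] F) →* ℂˣ) - 1, by
        have : 0 < Nat.card ((F ≃ₐ[K] F) →* ℂˣ) := Nat.card_pos
        omega⟩
    have h1 := hstab m (by rw [hm]; simp) φ
    have h2 : φ ^ m = φ⁻¹ := by
      have h3 : φ ^ (m + 1) = 1 := by
        rw [← hm]
        exact pow_card_eq_one' (G := (F ≃ₐ[K] F) →* ℂˣ)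
      refine MonoidHom.ext fun g => ?_
      have h4 : (φ g) ^ m * φ g = 1 := by
        rw [← pow_succ]
        exact DFunLike.congr_fun h3 g
      show (φ g) ^ m = (φ g)⁻¹
      exact eq_inv_of_mul_eq_one_left h4
    rw [h2] at h1
    exact h1

end Pool.Agent.L7h23.RL
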