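import Mathlib

/-!
# Project RL (helper82), part MBD: the determinant of a block matrix
-/

set_option autoImplicit false

namespace Pool.Agent.L7h23.RL

open scoped ComplexConjugate

theorem mbd_core (k : ℕ) (w : Fin 2 → ℂ) :
    (Matrix.of fun p q : Fin k × Fin 2 => if p.1 = q.1 then (if p.2 = 0 then w q.2 else conj (w q.2))
      else 0).det = (w 0 * conj (w 1) - w 1 * conj (w 0)) ^ k := by
  have h : (Matrix.of fun p q : Fin k × Fin 2 => if p.1 = q.1 then (if p.2 = 0 then w q.2 else
      conj (w q.2)) else 0) =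
      Matrix.kroneckerMap (· * ·) (1 : Matrix (Fin k) (Fin k) ℂ)
        (Matrix.of fun a b : Fin 2 => if a = 0 then w b else conj (w b)) := by
    ext ⟨i, a⟩ ⟨j, b⟩
    simp only [Matrix.of_apply, Matrix.kroneckerMap_apply, Matrix.one_apply]
    split_ifs <;> simp
  rw [h]
  have := Matrix.det_kronecker (1 : Matrix (Fin k) (Fin k) ℂ)
    (Matrix.of fun a b : Fin 2 => if a = 0 then w b else conj (w b))
  rw [this, Matrix.det_one, one_pow, one_mul, Matrix.det_fin_two, Fintype.card_fin]
  simp

end Pool.Agent.L7h23.RL
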