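import Pool.Agent.L7h82.RL.Stm2
import Pool.Agent.L7h23.RL.QdCore
import Pool.Agent.L7h23.RL.MbdCore

/-!
# Project RL (helper82): parts QD and MBD
-/

set_option autoImplicit false

namespace Pool.Agent.L7h23.RL

open NumberField IsDedekindDomain Module Pool.Agent.L7h82.RL
open scoped ComplexConjugate

theorem s_MBD : S_MBD := fun k w => mbd_core k w

theorem s_QD : S_QD := by
  intro K F _ _ _ _ _ _ _ σ δ hIQ _ ν hν 𝔣 χ hRC hCDF φ y hy hφ
  refine qd_core K F σ hIQ.deg hIQ.cplx ν hν (fun ψ => (Ideal.absNorm (𝔣 ψ) : ℝ))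
    (fun ψ => Nat.cast_nonneg _) ?_ hCDF φ y hy hφ
  have htop : 𝔣 1 = ⊤ := by
    by_contra hne
    obtain ⟨M, hM, hle⟩ := Ideal.exists_le_maximal _ hne
    have hbot : M ≠ ⊥ := by
      rintro rfl
      exact (hRC 1).ch.f0 (le_bot_iff.1 hle)
    obtain ⟨u, hu⟩ := exists_above (F := F) ⟨M, hM.isPrime, hbot⟩
    obtain ⟨t, -, ht⟩ := (hRC 1).ram ⟨M, hM.isPrime, hbot⟩ hle u hu
    exact ht rfl
  show (Ideal.absNorm (𝔣 1) : ℝ) = 1
  rw [htop]
  simp

end Pool.Agent.L7h23.RL
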